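import Pool.Agent.Work.MP_8a6869_an.FM.Main
import Pool.Agent.Work.MP_8a6869_an.FM.NulS
import Pool.Agent.Work.MP_8a6869_an.FM.Mss
import Pool.Agent.Work.MP_8a6869_an.FM.Pow
import Pool.Agent.Work.MP_8a6869_an.FM.Quo
import Pool.Agent.Work.MP_8a6869_an.FM.Cof
import Pool.Agent.Work.MP_8a6869_an.FM.Hom
import Pool.Agent.Work.MP_8a6869_an.FM.Pwr
import Pool.Agent.Work.MP_8a6869_an.FM.Sec
import Pool.Agent.Work.MP_8a6869_an.Conv
import Pool.Agent.Work.MP_8a6869_an.CC.Icc
import Pool.Agent.Work.MP_8a6869_an.CC.Flp
import Pool.Agent.Work.MP_8a6869_an.CC.Emb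
import Pool.Agent.Work.MP_8a6869_an.CC.Sq2
import Pool.Agent.Work.MP_8a6869_an.CC.Vcs
import Pool.Agent.Work.MP_8a6869_an.CC.Rmu
import Pool.Agent.Work.MP_8a6869_an.CC.Pin
import Pool.Agent.Work.MP_8a6869_an.CC.Blk
import Pool.Agent.Work.MP_8a6869_an.CC.Est
import Pool.Agent.Work.MP_8a6869_an.WR.ModelA
import Pool.Agent.Work.MP_8a6869_an.WR.CovA
import Pool.Agent.Work.MP_8a6869_an.WR.Seq

/-!
# Existentially closed group von Neumann algebras and subgroups with the fixed point property

A group has the fixed point property (of Glasner and Monod) if each of its actions on a set with an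
invariant mean has a fixed point. Examples: nonamenable groups all of whose proper subgroups are
amenable (Tarski monsters), infinite groups with Kazhdan's property (T) without proper subgroups of
finite index.

Let `G` be a countable icc group such that `L(G)` is existentially closed and let `Γ` be a subgroup of
`G` with trivial centre and the fixed point property. Then `G` contains all powers `Γ ^ n`, and every
automorphism of `Γ ^ n` is the restriction of an inner automorphism of `G`; so every group `F` of
automorphisms of `Γ ^ n`, in particular every finite group, is a quotient of a subgroup of `G`. The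
theorem is the contrapositive. For instance `L(G)` is not existentially closed if `G` contains such
a `Γ` and satisfies a law.
-/

namespace Pool.Agent.Results.MP_8a6869_an.FixedPointSubgroups

open MP8a6869Pub

noncomputable section

/-- The fixed point property: every action of `Γ` on a set `X` which has a `Γ`-invariant finitely
additive probability measure on all subsets has a fixed point. -/
def FixedPointProperty (Γ : Type) [Group Γ] : Prop :=
  ∀ (X : Type) [MulAction Γ X],
    (∃ m : Set X → ℝ, (∀ A, 0 ≤ m A) ∧ m Set.univ = 1 ∧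
      (∀ A B, Disjoint A B → m (A ∪ B) = m A + m B) ∧
      ∀ (γ : Γ) (A : Set X), m ((fun x => γ • x) '' A) = m A) →
    ∃ x : X, ∀ γ : Γ, γ • x = x

/-- Let `G` be a countable icc group, `Γ` a subgroup with trivial centre and the fixed point
property, and `F` a group of automorphisms of `Γ ^ n` which is not a quotient of a subgroup of `G`.
Then `L(G)` is a separable II_1 factor which is not existentially closed. -/
theorem result :
    ∀ (G : Type) [Group G] [Countable G],
      (∀ g : G, g ≠ 1 → (Set.range fun h : G => h * g * h⁻¹).Infinite) →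
      ∀ Γ : Subgroup G, FixedPointProperty Γ → Subgroup.center Γ = ⊥ →
      ∀ (n : ℕ) (F : Type) [Group F] (ρ : F →* MulAut (Fin n → Γ)), Function.Injective ρ →
        (∀ (S : Subgroup G) (f : S →* F), ¬ Function.Surjective f) →
        (LG G).IsII1Factor ∧ (LG G).IsSeparable ∧
          ∀ U : Ultrafilter ℕ, ¬ IsExistentiallyClosed U (LG G) := by
  intro G _ _ hicc Γ hΓ hc n F _ ρ hρ hF
  have hinf : Infinite G := by
    by_contra hfin
    rw [not_infinite_iff_finite] at hfin
    have h1 : ∀ g : G, g = 1 := fun g => by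
      by_contra hg
      exact hicc g hg (Set.toFinite _)
    have hsub : ∀ a b : F, a = b := by
      intro a b
      apply hρ
      ext f i
      rw [h1 (((ρ a) f) i : Γ), h1 (((ρ b) f) i : Γ)]
    refine hF ⊥ 1 fun b => ⟨1, hsub _ _⟩
  have hΓ' : MP8a6869.FM.FixedMean Γ := fun X _ ⟨m, hm⟩ =>
    hΓ X ⟨m, hm.nonneg, hm.univ, hm.add, hm.inv⟩
  refine ⟨isII1Factor_of (MP8a6869.LG_factor G hicc), MP8a6869.Sep.separable_ell2 G,
    fun U hU => ?_⟩
  have hEC : MP8a6869.FM.EC U G := fun M hM hsep ι =>
    isExistential_of (hU (toPub M) (isII1Factor_of hM) hsep (toPubEmb ι))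
  obtain ⟨S, f, hf⟩ := MP8a6869.FM.main MP8a6869.FM.nul MP8a6869.FM.mss MP8a6869.FM.pow
    MP8a6869.FM.quo MP8a6869.FM.cof MP8a6869.FM.hom MP8a6869.FM.pwr MP8a6869.FM.sec
    MP8a6869.CC.icc MP8a6869.CC.flp MP8a6869.CC.emb MP8a6869.CC.sq2 MP8a6869.CC.vcs
    MP8a6869.CC.rmu MP8a6869.CC.pin MP8a6869.CC.blkf MP8a6869.CC.est
    (MP8a6869.WR.modelA MP8a6869.WR.covA) MP8a6869.WR.seq U G hicc hEC Γ hΓ' hc n F ρ hρ
  exact hF S f hf

end

end Pool.Agent.Results.MP_8a6869_an.FixedPointSubgroups
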