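import Pool.Agent.Work.MP_8a6869_an.WR.MainA
import Pool.Agent.Work.MP_8a6869_an.WR.ModelA
import Pool.Agent.Work.MP_8a6869_an.WR.CovA
import Pool.Agent.Work.MP_8a6869_an.WR.ConcA
import Pool.Agent.Work.MP_8a6869_an.WR.Amen
import Pool.Agent.Work.MP_8a6869_an.WR.Seq

/-!
# A homogeneity property of groups with existentially closed von Neumann algebra

Let `G` be a countable icc group, `H` a nonamenable subgroup, `α : H → G` an injective
homomorphism and `(g, g')` a pair which is not in the graph of `α`. If `L(G)` is existentially
closed then there is `z` in `G` such that the subgroup `{h : α(h) = z h z⁻¹}` of `H` is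
nonamenable and `g' z ≠ z g`. The theorem is the contrapositive, in the strong form: otherwise
there are a separable II_1 factor `M` and an embedding `L(G) → M` which is not existential, for
any ultrafilter on `ℕ`.

For instance `L(G₁ × G₂)` is not existentially closed if a nonamenable subgroup of `G₁` embeds in
`G₂`, and `L(G)` is not existentially closed if there are a nonamenable subgroup `H` and an
element `g` outside of `H` which commutes with all `z` in `G` whose centraliser in `H` is
nonamenable.
-/

namespace Pool.Agent.Results.MP_8a6869_an.Homogeneity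

open MP8a6869Pub MP8a6869.WR

theorem result (G : Type) [Group G] [Countable G]
    (hicc : ∀ g : G, g ≠ 1 → (Set.range fun h : G => h * g * h⁻¹).Infinite)
    (H : Subgroup G) (hH : ¬ IsAmen H) (α : H →* G) (hα : Function.Injective α)
    (g g' : G) (hg : ∀ h : H, (h : G) = g → α h ≠ g')
    (hz : ∀ z : G, ¬ IsAmen (α.eqLocus ((MulAut.conj z).toMonoidHom.comp H.subtype)) →
      g' * z = z * g) :
    (LG G).IsII1Factor ∧ (LG G).IsSeparable ∧
      (∃ M : TracialVNA, M.IsII1Factor ∧ M.IsSeparable ∧ ∃ ι : Embedding (LG G) M,
        ∀ U : Ultrafilter ℕ, ¬ IsExistential U ι) ∧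
      ∀ U : Ultrafilter ℕ, ¬ IsExistentiallyClosed U (LG G) := by
  obtain ⟨M, hM, hsep, ι, hι⟩ := mainA concA (modelA covA) seq amen G hicc H α hH hα g g' hg hz
  have hinfH : Infinite H := (amen H hH).1
  have hinf : Infinite G := Infinite.of_injective (fun h : H => (h : G)) Subtype.val_injective
  have hI : (toPub M).IsII1Factor := isII1Factor_of hM
  have hU : ∀ U : Ultrafilter ℕ, ¬ IsExistential U (toPubEmb ι) :=
    fun U hU => hι U (isExistential_of hU)
  exact ⟨isII1Factor_of (MP8a6869.LG_factor G hicc), MP8a6869.Sep.separable_ell2 G,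
    ⟨toPub M, hI, hsep, toPubEmb ι, hU⟩, fun U h => hU U (h (toPub M) hI hsep (toPubEmb ι))⟩

end Pool.Agent.Results.MP_8a6869_an.Homogeneity
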